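import Pool.Agent.H448R3.Near2
import Pool.Agent.H448R3.Maj

set_option autoImplicit false

namespace Pool.Agent.Results.MP_4c1ea5_lc.ZFCClosed

open Filter Topology

open Classical in
/-- The proportion of elements of `X` among `0, ..., n - 1`. -/
noncomputable def ratio (X : Set ℕ) (n : ℕ) : ℝ :=
  (((Finset.range n).filter (fun k => k ∈ X)).card : ℝ) / n

/-- The upper density of a set of natural numbers. -/
noncomputable def upperDensity (X : Set ℕ) : ℝ := limsup (ratio X) atTop

/-- `A` and `B` are coarsely similar: their symmetric difference has asymptotic density `0`. -/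
def CoarselySimilar (A B : Set ℕ) : Prop := Tendsto (ratio (symmDiff A B)) atTop (𝓝 0)

theorem ratio_nonneg (X : Set ℕ) (n : ℕ) : 0 ≤ ratio X n := by
  unfold ratio; positivity

theorem ratio_le_one (X : Set ℕ) (n : ℕ) : ratio X n ≤ 1 := by
  classical
  unfold ratio
  refine div_le_one_of_le₀ ?_ (Nat.cast_nonneg n)
  have h := Finset.card_filter_le (Finset.range n) (fun k => k ∈ X)
  rw [Finset.card_range] at h
  exact_mod_cast h

theorem ratio_triangle (A B C : Set ℕ) (n : ℕ) :
    ratio (symmDiff A C) n ≤ ratio (symmDiff A B) n + ratio (symmDiff B C) n := by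
  classical
  unfold ratio
  rw [← add_div]
  refine div_le_div_of_nonneg_right ?_ (Nat.cast_nonneg n)
  have h : ((Finset.range n).filter (fun k => k ∈ symmDiff A C)) ⊆
      ((Finset.range n).filter (fun k => k ∈ symmDiff A B)) ∪
        ((Finset.range n).filter (fun k => k ∈ symmDiff B C)) := by
    intro k hk
    simp only [Finset.mem_filter, Finset.mem_union, Set.mem_symmDiff] at hk ⊢
    tauto
  have h2 := (Finset.card_le_card h).trans (Finset.card_union_le _ _)
  exact_mod_cast h2

theorem ratio_self (A : Set ℕ) (n : ℕ) : ratio (symmDiff A A) n = 0 := by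
  unfold ratio; simp

theorem coarse_equiv : Equivalence CoarselySimilar where
  refl A := by
    have : ratio (symmDiff A A) = fun _ => 0 := funext (ratio_self A)
    show Tendsto (ratio (symmDiff A A)) atTop (𝓝 0)
    rw [this]; exact tendsto_const_nhds
  symm {A B} h := by
    show Tendsto (ratio (symmDiff B A)) atTop (𝓝 0)
    rw [symmDiff_comm]; exact h
  trans {A B C} h1 h2 := by
    have h3 := Tendsto.add h1 h2
    rw [add_zero] at h3
    exact squeeze_zero (ratio_nonneg _) (ratio_triangle A B C) h3

/-- Coarse similarity as an equivalence relation. -/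
def coarse : Setoid (Set ℕ) := ⟨CoarselySimilar, coarse_equiv⟩

/-- The space of coarse similarity classes. -/
def CoarseSpace : Type := Quotient coarse

/-- The coarse similarity class of a set. -/
def cls (A : Set ℕ) : CoarseSpace := Quotient.mk coarse A

theorem bdd (X : Set ℕ) : IsBoundedUnder (· ≤ ·) atTop (ratio X) :=
  isBoundedUnder_of ⟨1, ratio_le_one X⟩

theorem cobdd (X : Set ℕ) : IsCoboundedUnder (· ≤ ·) atTop (ratio X) :=
  IsBoundedUnder.isCoboundedUnder_le (isBoundedUnder_of ⟨0, ratio_nonneg X⟩)

theorem ud_le {X : Set ℕ} {r : ℝ} (h : ∀ᶠ n in atTop, ratio X n ≤ r) : upperDensity X ≤ r :=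
  limsup_le_of_le (cobdd X) h

theorem ev_lt {X : Set ℕ} {r : ℝ} (h : upperDensity X < r) : ∀ᶠ n in atTop, ratio X n < r :=
  eventually_lt_of_limsup_lt h (bdd X)

theorem ud_nonneg (X : Set ℕ) : 0 ≤ upperDensity X := by
  by_contra hcon
  push Not at hcon
  obtain ⟨n, hn⟩ := (ev_lt hcon).exists
  exact absurd (ratio_nonneg X n) (not_le.2 hn)

theorem ud_triangle (A B C : Set ℕ) :
    upperDensity (symmDiff A C) ≤ upperDensity (symmDiff A B) + upperDensity (symmDiff B C) := by
  refine le_of_forall_pos_le_add fun ε hε => ?_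
  have h1 := ev_lt (show upperDensity (symmDiff A B) < upperDensity (symmDiff A B) + ε / 2 by
    linarith)
  have h2 := ev_lt (show upperDensity (symmDiff B C) < upperDensity (symmDiff B C) + ε / 2 by
    linarith)
  refine ud_le ?_
  filter_upwards [h1, h2] with n h3 h4
  have := ratio_triangle A B C n
  linarith

theorem ud_zero_iff {A B : Set ℕ} : upperDensity (symmDiff A B) = 0 ↔ CoarselySimilar A B := by
  constructor
  · intro h
    refine tendsto_order.2 ⟨fun r hr => ?_, fun r hr => ?_⟩
    · exact Eventually.of_forall fun n => lt_of_lt_of_le hr (ratio_nonneg _ n)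
    · exact ev_lt (by rw [h]; exact hr)
  · intro h
    exact Tendsto.limsup_eq h

theorem ud_congr {A B A' B' : Set ℕ} (h1 : CoarselySimilar A A') (h2 : CoarselySimilar B B') :
    upperDensity (symmDiff A B) = upperDensity (symmDiff A' B') := by
  have key : ∀ {A B A' B' : Set ℕ}, CoarselySimilar A A' → CoarselySimilar B B' →
      upperDensity (symmDiff A B) ≤ upperDensity (symmDiff A' B') := by
    intro A B A' B' h1 h2
    have e1 := ud_triangle A A' B
    have e2 := ud_triangle A' B' B
    rw [ud_zero_iff.2 h1] at e1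
    rw [ud_zero_iff.2 (coarse_equiv.symm h2)] at e2
    linarith
  exact le_antisymm (key h1 h2) (key (coarse_equiv.symm h1) (coarse_equiv.symm h2))

/-- The metric `δ([A], [B]) = upper density of A Δ B`. -/
noncomputable instance : MetricSpace CoarseSpace where
  dist := Quotient.lift₂ (fun A B => upperDensity (symmDiff A B))
    (fun _ _ _ _ h1 h2 => ud_congr h1 h2)
  dist_self := by
    intro a
    induction a using Quotient.inductionOn with
    | h A => exact ud_zero_iff.2 (coarse_equiv.refl A)
  dist_comm := by
    intro a b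
    induction a, b using Quotient.inductionOn₂ with
    | h A B =>
      show upperDensity (symmDiff A B) = upperDensity (symmDiff B A)
      rw [symmDiff_comm]
  dist_triangle := by
    intro a b c
    induction a, b, c using Quotient.inductionOn₃ with
    | h A B C => exact ud_triangle A B C
  eq_of_dist_eq_zero := by
    intro a b
    induction a, b using Quotient.inductionOn₂ with
    | h A B => exact fun h => Quotient.sound (ud_zero_iff.1 h)

theorem dist_cls (A B : Set ℕ) : dist (cls A) (cls B) = upperDensity (symmDiff A B) := rfl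

open Classical in
/-- The characteristic function of a set. -/
noncomputable def ind (A : Set ℕ) (n : ℕ) : ℕ := if n ∈ A then 1 else 0

/-- Turing reducibility between sets of natural numbers. -/
def TuringLE (A B : Set ℕ) : Prop :=
  TuringReducible (fun n => Part.some (ind A n)) (fun n => Part.some (ind B n))

/-- `U` is closed under Turing equivalence. -/
def TuringInvariant (U : Set (Set ℕ)) : Prop :=
  ∀ A ∈ U, ∀ B, TuringLE A B → TuringLE B A → B ∈ U

/-- The subspace generated by `U`. -/
def generated (U : Set (Set ℕ)) : Set CoarseSpace := {s | ∃ A ∈ U, cls A = s}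

/-! ### Proof -/

open Pool.Agent.H448R3 Pool.Agent.Helper743

theorem le_iff {A B : Set ℕ} : TuringLE A B ↔ TR (ind A) (ind B) := TR_iff.symm

theorem card_er (A B : Set ℕ) (n : ℕ) :
    (open Classical in ((Finset.range n).filter (fun k => k ∈ symmDiff A B)).card) =
      er (ind A) (ind B) n := by
  classical
  induction n with
  | zero => simp [er_zero]
  | succ n ih =>
    rw [er_succ, Finset.range_add_one, Finset.filter_insert]
    by_cases h : n ∈ symmDiff A B
    · have hne : ind A n ≠ ind B n := by
        unfold ind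
        rw [Set.mem_symmDiff] at h
        rcases h with ⟨h1, h2⟩ | ⟨h1, h2⟩
        · rw [if_pos h1, if_neg h2]; exact one_ne_zero
        · rw [if_pos h1, if_neg h2]; exact zero_ne_one
      rw [if_pos h, if_neg hne, Finset.card_insert_of_notMem (by simp), ih]
    · have heq : ind A n = ind B n := by
        unfold ind
        rw [Set.mem_symmDiff] at h
        by_cases h1 : n ∈ A <;> by_cases h2 : n ∈ B
        · rw [if_pos h1, if_pos h2]
        · exact absurd (Or.inl ⟨h1, h2⟩) h
        · exact absurd (Or.inr ⟨h2, h1⟩) h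
        · rw [if_neg h1, if_neg h2]
      rw [if_neg h, if_pos heq, ih]; rfl

theorem ratio_er (A B : Set ℕ) (n : ℕ) :
    ratio (symmDiff A B) n = (er (ind A) (ind B) n : ℝ) / n := by
  unfold ratio
  rw [← card_er]

theorem ind_bit (A : Set ℕ) (x : ℕ → Bool) (h : ∀ j, x j = true ↔ j ∈ A) (j : ℕ) :
    bit (x j) = ind A j := by
  classical
  unfold ind
  cases hx : x j with
  | true => rw [if_pos ((h j).1 hx)]; rfl
  | false =>
    rw [if_neg (fun hh => by rw [(h j).2 hh] at hx; exact absurd hx (by simp))]; rfl

/-- near in upper density gives few disagreements -/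
theorem few {A B : Set ℕ} (N : ℕ) (h : upperDensity (symmDiff A B) < 1 / ((N : ℝ) + 1)) :
    ∃ m0, ∀ m, m0 ≤ m → er (ind A) (ind B) m * N ≤ m := by
  obtain ⟨m0, hm0⟩ := eventually_atTop.1 (ev_lt h)
  refine ⟨max m0 1, fun m hm => ?_⟩
  have h1 := hm0 m (le_trans (le_max_left _ _) hm)
  have hpos : (0 : ℝ) < m := by
    have : 1 ≤ m := le_trans (le_max_right _ _) hm
    exact_mod_cast this
  have hN : (0 : ℝ) < (N : ℝ) + 1 := by positivity
  rw [ratio_er, div_lt_div_iff₀ hpos hN] at h1
  have h2 : ((er (ind A) (ind B) m * (N + 1) : ℕ) : ℝ) < (m : ℝ) := by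
    push_cast; linarith
  have h3 : er (ind A) (ind B) m * (N + 1) < m := by exact_mod_cast h2
  have h4 : er (ind A) (ind B) m * N ≤ er (ind A) (ind B) m * (N + 1) :=
    Nat.mul_le_mul_left _ (Nat.le_succ N)
  omega

theorem similar_of_er {A B : Set ℕ}
    (h : ∀ N, ∃ m0, ∀ m, m0 ≤ m → er (ind A) (ind B) m * N ≤ m) : CoarselySimilar A B := by
  refine tendsto_order.2 ⟨fun r hr => ?_, fun r hr => ?_⟩
  · exact Eventually.of_forall fun n => lt_of_lt_of_le hr (ratio_nonneg _ n)
  · obtain ⟨N, hN⟩ := exists_nat_gt (1 / r)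
    obtain ⟨m0, hm0⟩ := h N
    refine eventually_atTop.2 ⟨max m0 1, fun m hm => ?_⟩
    have h1 := hm0 m (le_trans (le_max_left _ _) hm)
    have hpos : (0 : ℝ) < m := by
      have : 1 ≤ m := le_trans (le_max_right _ _) hm
      exact_mod_cast this
    rw [ratio_er, div_lt_iff₀ hpos]
    have h2 : (er (ind A) (ind B) m : ℝ) * N ≤ m := by exact_mod_cast h1
    have h3 : 1 < r * N := by
      rw [div_lt_iff₀ hr] at hN; linarith
    by_cases h0 : (er (ind A) (ind B) m : ℝ) = 0
    · rw [h0]; positivity
    · have h4 : (0 : ℝ) < er (ind A) (ind B) m := by positivity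
      nlinarith

/-- the sets not computing `C` -/
def avoid (C : Set ℕ) : Set (Set ℕ) := {A | ¬ TuringLE C A}

theorem avoid_invariant (C : Set ℕ) : TuringInvariant (avoid C) := by
  intro A hA B h1 h2 hB
  exact hA (TuringReducible.trans hB h2)

theorem avoid_closed (C : Set ℕ) : IsClosed (generated (avoid C)) := by
  classical
  refine isClosed_of_closure_subset ?_
  intro a ha
  obtain ⟨A, rfl⟩ : ∃ A, cls A = a := Quotient.exists_rep a
  rw [Metric.mem_closure_iff] at ha
  let b : ℕ → Bool := fun j => decide (j ∈ A)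
  have hb : ∀ j, bit (b j) = ind A j := ind_bit A b (fun j => by simp [b])
  have hb' : (fun j => bit (b j)) = ind A := funext hb
  obtain ⟨z, hz1, hz2⟩ := exists_avoid (ind C) b (by
    intro N
    obtain ⟨s, ⟨X, hX, rfl⟩, hd⟩ := ha (1 / ((N : ℝ) + 1)) (by positivity)
    rw [dist_comm, dist_cls] at hd
    obtain ⟨m0, hm0⟩ := few N hd
    let x : ℕ → Bool := fun j => decide (j ∈ X)
    have hx : (fun j => bit (x j)) = ind X := funext (ind_bit X x (fun j => by simp [x]))
    refine ⟨x, m0, ?_, ?_⟩
    · rw [hx]; exact fun h => hX (le_iff.2 h)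
    · rw [hx, hb']; exact hm0)
  let Z : Set ℕ := {j | z j = true}
  have hZ : (fun j => bit (z j)) = ind Z := funext (ind_bit Z z (fun j => Iff.rfl))
  rw [hZ] at hz1
  rw [hZ, hb'] at hz2
  refine ⟨Z, fun h => hz1 (le_iff.1 h), ?_⟩
  exact Quotient.sound (similar_of_er hz2)

/-- the set coding `C` redundantly -/
def code (C : Set ℕ) : Set ℕ := {j | Nat.log 2 j ∈ C}

theorem code_above {C B : Set ℕ} (h : CoarselySimilar B (code C)) : TuringLE C B := by
  classical
  rw [le_iff]
  have h1 : upperDensity (symmDiff B (code C)) < 1 / (((8 : ℕ) : ℝ) + 1) := by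
    rw [ud_zero_iff.2 h]; positivity
  obtain ⟨m0, hm0⟩ := few 8 h1
  have hi : ∀ (A : Set ℕ) (n : ℕ), ind A n = 0 ∨ ind A n = 1 := by
    intro A n
    unfold ind
    by_cases hn : n ∈ A
    · right; rw [if_pos hn]
    · left; rw [if_neg hn]
  refine majority (ind C) (ind B) (hi C) (hi B) m0 ?_
  intro m hm
  have h2 := hm0 m hm
  have h3 : ind (code C) = fun j => ind C (Nat.log 2 j) := by
    funext j
    rfl
  rw [h3] at h2
  exact h2

/-- there is a noncomputable set -/
theorem exists_noncomputable : ∃ C : Set ℕ, ¬ TuringLE C ∅ := by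
  classical
  refine ⟨{n | K n = 1}, fun h => ?_⟩
  have h1 : ind {n | K n = 1} = K := by
    funext n
    unfold ind
    have hK : K n = 0 ∨ K n = 1 := by
      unfold K
      by_cases h : ((Nat.Partrec.Code.eval (Denumerable.ofNat Nat.Partrec.Code n.unpair.1)
        n.unpair.2).Dom)
      · right; rw [if_pos h]
      · left; rw [if_neg h]
    rcases hK with h | h
    · rw [if_neg (show ¬ n ∈ {n | K n = 1} from fun hh => by
        have : K n = 1 := hh
        omega), h]
    · rw [if_pos (show n ∈ {n | K n = 1} from h), h]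
  have h2 : (fun n => Part.some (ind ∅ n) : ℕ →. ℕ) = fun _ => Part.some 0 := by
    funext n
    unfold ind
    rw [if_neg (by simp)]
  unfold TuringLE at h
  rw [h1, h2] at h
  exact K_not_computable (TuringReducible.partrec_of_const h)

/-- **ZFC proves** (no continuum hypothesis is used) that some Turing-invariant `U` generates a
subspace of the space of coarse similarity classes which is nonempty, proper and closed. -/
theorem result : ∃ U : Set (Set ℕ), TuringInvariant U ∧ (generated U).Nonempty ∧
    generated U ≠ Set.univ ∧ IsClosed (generated U) := by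
  obtain ⟨C, hC⟩ := exists_noncomputable
  refine ⟨avoid C, avoid_invariant C, ⟨cls ∅, ∅, hC, rfl⟩, ?_, avoid_closed C⟩
  intro h
  have h1 : cls (code C) ∈ generated (avoid C) := by rw [h]; trivial
  obtain ⟨B, hB, h2⟩ := h1
  exact hB (code_above (Quotient.exact h2))

end Pool.Agent.Results.MP_4c1ea5_lc.ZFCClosed
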